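import Pool.Agent.Helper40.DZ.Stmts
import Pool.Agent.Helper81.BZ.CIT2

/-!
CIT3: the iterates of a family of elements transformed by a continuous unitary cocycle.
-/

open Finset Filter MeasureTheory Topology
open scoped ComplexConjugate InnerProductSpace

namespace Pool.Agent.Helper40.DZ

open Pool.Agent.Helper16.AZ (T E Op mm)
open Pool.Agent.Helper16.BZ (co co_zero co_succ co_add co_continuous cit2_cont cit2_single Rot)

universe u

theorem st_CIT3 : ST_CIT3.{u} := by
  intro A _ r d S α π Φ v hrot hfam n i f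
  have hc : Continuous (fun x => (Matrix.toEuclideanCLM (𝕜 := ℂ) (Φ x) : Op d)) :=
    (cit2_cont d).comp Φ.continuous
  have hcc : ∀ (n : ℕ) (j : Fin d), Continuous (fun x => f (S^[n] x) *
      inner ℂ (EuclideanSpace.single i (1 : ℂ))
      (co S (fun x => Matrix.toEuclideanCLM (𝕜 := ℂ) (Φ x)) n x
      (EuclideanSpace.single j (1 : ℂ)))) := fun n j =>
    (f.continuous.comp (S.continuous.iterate n)).mul
      (continuous_const.inner ((co_continuous S _ S.continuous hc n).clm_apply continuous_const))
  refine ⟨fun j => ⟨_, hcc n j⟩, fun j x => rfl, ?_⟩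
  induction n with
  | zero =>
    rw [Function.iterate_zero, id_eq, Finset.sum_eq_single i]
    · have : (⟨_, hcc 0 i⟩ : C(T r, ℂ)) = f := by
        ext x
        simp
      beta_reduce
      rw [this]
    · intro j _ hj
      have : (⟨_, hcc 0 j⟩ : C(T r, ℂ)) = 0 := by
        ext x
        simp [EuclideanSpace.inner_single_left, Ne.symm hj]
      beta_reduce
      rw [this, map_zero, zero_mul]
    · intro h
      exact absurd (Finset.mem_univ i) h
  | succ n ih =>
    rw [Function.iterate_succ_apply', ih, map_sum]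
    have h1 : ∀ j, α (π ⟨_, hcc n j⟩ * v j) = ∑ k, π ((⟨_, hcc n j⟩ : C(T r, ℂ)).comp S *
        ⟨fun x => Φ x j k, by fun_prop⟩) * v k := by
      intro j
      rw [map_mul, hrot, hfam.2 j, Finset.mul_sum]
      refine Finset.sum_congr rfl fun k _ => ?_
      rw [map_mul, mul_assoc]
    rw [Finset.sum_congr rfl fun j _ => h1 j, Finset.sum_comm]
    refine Finset.sum_congr rfl fun k _ => ?_
    rw [← Finset.sum_mul, ← map_sum]
    congr 2
    ext x
    rw [ContinuousMap.sum_apply]
    simp only [ContinuousMap.mul_apply, ContinuousMap.coe_mk, ContinuousMap.comp_apply]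
    have h2 := co_add S (fun x => (Matrix.toEuclideanCLM (𝕜 := ℂ) (Φ x) : Op d)) n 1 x
    rw [h2, Function.iterate_one]
    have h3 : (co S (fun x => (Matrix.toEuclideanCLM (𝕜 := ℂ) (Φ x) : Op d)) n (S x) *
        co S (fun x => (Matrix.toEuclideanCLM (𝕜 := ℂ) (Φ x) : Op d)) 1 x)
          (EuclideanSpace.single k (1 : ℂ)) =
        (co S (fun x => (Matrix.toEuclideanCLM (𝕜 := ℂ) (Φ x) : Op d)) n (S x))
          ((Matrix.toEuclideanCLM (𝕜 := ℂ) (Φ x) : Op d) (EuclideanSpace.single k (1 : ℂ))) := by
      rw [co_succ, co_zero, Function.iterate_zero, id_eq, mul_one]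
      rfl
    rw [h3, cit2_single, map_sum, inner_sum, Finset.mul_sum, Function.iterate_succ_apply]
    refine Finset.sum_congr rfl fun j _ => ?_
    rw [map_smul, inner_smul_right]
    ring

end Pool.Agent.Helper40.DZ
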