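import Pool.Agent.Helper40.DZ.Stmts
import Pool.Agent.Helper2.BZ.CTH2

/-!
CTH3: Moebius disjointness for one family of elements transformed by a cocycle over a system
which is good for all cocycles with a null set of discontinuities.
-/

open Finset Filter MeasureTheory Topology
open scoped ComplexConjugate InnerProductSpace

namespace Pool.Agent.Helper40.DZ

open Pool.Agent.Helper16.AZ (T E Op mm unitary_norm)
open Pool.Agent.Helper16.BZ (co ff Rot co_unitary)
open Pool.Agent.Helper16.MD (MS)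
open Pool.Agent.Helper2.AZ.CTH (cth_op cth_op_norm cth_op_unitary cth_smul_unitary
  cth_op_continuous)
open Pool.Agent.Helper2.BZ.CTH2 (cthb_co_smul)
open Pool.Agent.Helper40.Mob (IsState TwistedDisjoint)

universe u

theorem st_CTH3 (hRMF : Pool.Agent.Helper16.BZ.ST_RMF2.{u}) (hCIT : ST_CIT3.{u}) :
    ST_CTH3.{u} := by
  intro A _ r d S α π Φ v hGood hRot hFam f i ρ hρ z hz
  obtain ⟨hU, hv⟩ := hFam
  set φ : T r → Op d := fun x => cth_op (Φ x) with hφ
  have hφu : ∀ x, φ x ∈ unitary (Op d) := fun x => cth_op_unitary (hU x)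
  have hφc : Continuous φ := cth_op_continuous.comp Φ.continuous
  set φz : T r → Op d := fun x => z • φ x with hφz
  have hUR : UR φz := UR.of_continuous (hφc.const_smul z) fun x => cth_smul_unitary z hz (hφu x)
  choose F hF1 hF2 using fun n => hCIT A r d S α π Φ v hRot ⟨hU, hv⟩ n i f
  have hF1' : ∀ (n : ℕ) (j : Fin d) (x : T r), F n j x = f (S^[n] x) *
      inner ℂ (EuclideanSpace.single i (1 : ℂ))
      (co S φ n x (EuclideanSpace.single j (1 : ℂ))) := hF1
  have hFn : ∀ (n : ℕ) (j : Fin d) (x : T r), ‖F n j x‖ ≤ ‖f‖ := by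
    intro n j x
    rw [hF1', norm_mul]
    have h1 : ‖f (S^[n] x)‖ ≤ ‖f‖ := f.norm_coe_le_norm _
    have h2 : ‖(inner ℂ (EuclideanSpace.single i (1 : ℂ))
      (co S φ n x (EuclideanSpace.single j (1 : ℂ))) : ℂ)‖ ≤ 1 := by
      refine (norm_inner_le_norm _ _).trans ?_
      rw [unitary_norm (co_unitary S φ hφu n x)]
      simp
    calc _ ≤ ‖f‖ * 1 := mul_le_mul h1 h2 (norm_nonneg _) (norm_nonneg _)
      _ = ‖f‖ := mul_one _
  let G : ℕ → Fin d → C(T r, ℂ) := fun N j =>
    ((N : ℂ))⁻¹ • ∑ n ∈ Icc 1 N, (((ArithmeticFunction.moebius n : ℤ) : ℂ) * z ^ n) • F n j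
  have hG : ∀ N j x, G N j x = ((N : ℂ))⁻¹ *
      ∑ n ∈ Icc 1 N, (((ArithmeticFunction.moebius n : ℤ) : ℂ) * z ^ n) * F n j x := by
    intro N j x
    simp only [G, ContinuousMap.coe_smul, Pi.smul_apply, smul_eq_mul]
    congr 1
    rw [ContinuousMap.sum_apply]
    rfl
  have hGb : ∀ N j x, ‖G N j x‖ ≤ ‖f‖ := by
    intro N j x
    rw [hG, norm_mul, norm_inv, Complex.norm_natCast]
    have hs : ‖∑ n ∈ Icc 1 N, (((ArithmeticFunction.moebius n : ℤ) : ℂ) * z ^ n) * F n j x‖ ≤
        (N : ℝ) * ‖f‖ := by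
      refine (norm_sum_le _ _).trans ?_
      have : ∀ n ∈ Icc 1 N,
          ‖(((ArithmeticFunction.moebius n : ℤ) : ℂ) * z ^ n) * F n j x‖ ≤ ‖f‖ := by
        intro n _
        rw [norm_mul, norm_mul, norm_pow, hz, one_pow, mul_one]
        have hm : ‖((ArithmeticFunction.moebius n : ℤ) : ℂ)‖ ≤ 1 := by
          rw [Complex.norm_intCast]
          exact_mod_cast ArithmeticFunction.abs_moebius_le_one
        calc _ ≤ 1 * ‖f‖ := mul_le_mul hm (hFn n j x) (norm_nonneg _) zero_le_one
          _ = ‖f‖ := one_mul _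
      refine (Finset.sum_le_sum this).trans ?_
      simp
    rcases Nat.eq_zero_or_pos N with h0 | h0
    · subst h0; simp
    · have hN : (0 : ℝ) < N := by exact_mod_cast h0
      rw [inv_mul_le_iff₀ hN]
      exact hs
  have hG0 : ∀ j x, Tendsto (fun N => G N j x) atTop (𝓝 0) := by
    intro j x
    have hvc : Continuous (fun y : T r => (conj (f y)) •
        (EuclideanSpace.single i (1 : ℂ) : E d)) :=
      (Complex.continuous_conj.comp f.continuous).smul continuous_const
    have h := hGood d φz (fun y => (conj (f y)) • (EuclideanSpace.single i (1 : ℂ) : E d))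
      (EuclideanSpace.single j (1 : ℂ)) x hUR hvc
    refine h.congr fun N => ?_
    rw [hG, MS, div_eq_inv_mul]
    congr 1
    refine Finset.sum_congr rfl fun n _ => ?_
    rw [hF1', ff, hφz, cthb_co_smul, smul_apply, inner_smul_right, inner_smul_left,
      Complex.conj_conj]
    ring
  have hfin : ∀ j, Tendsto (fun N => ρ (π (G N j) * v j)) atTop (𝓝 0) := fun j =>
    hRMF A (T r) π ρ (v j) (fun N => G N j) ‖f‖ hρ (fun N x => hGb N j x) (fun x => hG0 j x)
  have hsum : Tendsto (fun N => ∑ j, ρ (π (G N j) * v j)) atTop (𝓝 0) := by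
    have := tendsto_finsetSum (Finset.univ : Finset (Fin d)) fun j _ => hfin j
    simpa using this
  refine hsum.congr fun N => ?_
  have e1 : ∀ j, ρ (π (G N j) * v j) = ((N : ℂ))⁻¹ *
      ∑ n ∈ Icc 1 N, (((ArithmeticFunction.moebius n : ℤ) : ℂ) * z ^ n) * ρ (π (F n j) * v j) := by
    intro j
    simp only [G, map_smul, map_sum, smul_mul_assoc, Finset.sum_mul, smul_eq_mul]
  rw [Finset.sum_congr rfl fun j _ => e1 j, ← Finset.mul_sum, Finset.sum_comm, div_eq_inv_mul]
  congr 1
  refine Finset.sum_congr rfl fun n _ => ?_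
  rw [hF2 n, map_sum, Finset.mul_sum]

end Pool.Agent.Helper40.DZ
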